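import Pool.Agent.N569.VT.Defs

/-!
# VT4: the bracket as a sum over the states of the outside of the box (helper362)
-/

set_option autoImplicit false

namespace Pool.Agent.N362.VT

open Pool.Agent.H891R2.Jones Pool.Agent.W639.RB Pool.Agent.TH561 Pool.Agent.N569.TW Pool.Agent.N569.VT
  Finset LaurentPolynomial

variable {m : ℕ}

/-- the weight of a colouring as a sum over the states -/
theorem WW_states {P : Type} {N : ℕ} {A : ℂ} (hA : A ≠ 0) (D : Diagram P) (col : P → Fin N) :
    WW A D.arcs D.crossings col =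
      ∑ s : Fin D.crossings.length → Bool, A ^ (Diagram.weight s) *
        ind (∀ p q, D.Joined s p q → col p = col q) := by
  classical
  unfold WW
  rw [← Fin.prod_univ_fun_getElem D.crossings (crossW A col)]
  have h2 : ∀ i ∈ (Finset.univ : Finset (Fin D.crossings.length)),
      crossW A col D.crossings[i.1] =
      ∑ b : Bool, (A ^ (if b then 1 else -1 : ℤ)) *
        ind (if b then (col D.crossings[i.1].a = col D.crossings[i.1].b ∧
            col D.crossings[i.1].c = col D.crossings[i.1].d)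
          else (col D.crossings[i.1].b = col D.crossings[i.1].c ∧
            col D.crossings[i.1].d = col D.crossings[i.1].a)) := by
    intro i _
    simp [crossW]
  rw [Finset.prod_congr rfl h2]
  rw [Finset.prod_univ_sum, Fintype.piFinset_univ, Finset.mul_sum]
  refine Finset.sum_congr rfl fun s _ => ?_
  rw [Finset.prod_mul_distrib, ← zpow_sum _ hA, prod_ind, arcs_prod, mul_left_comm, ind_mul]
  unfold Diagram.weight
  congr 1
  refine ind_congr ?_
  constructor
  · rintro ⟨h3, h4⟩ p q (h5 | ⟨i, h5⟩)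
    · exact h3 _ h5
    · have h6 := h4 i (Finset.mem_univ _)
      by_cases hs : s i
      · simp only [hs, if_true] at h5 h6
        rcases h5 with ⟨rfl, rfl⟩ | ⟨rfl, rfl⟩
        · exact h6.1
        · exact h6.2
      · simp only [hs] at h5 h6
        rcases h5 with ⟨rfl, rfl⟩ | ⟨rfl, rfl⟩
        · exact h6.1
        · exact h6.2
  · intro h3
    refine ⟨fun x hx => h3 _ _ (Or.inl hx), fun i _ => ?_⟩
    by_cases hs : s i
    · simp only [hs, if_true]
      exact ⟨h3 _ _ (Or.inr ⟨i, by simp [hs]⟩), h3 _ _ (Or.inr ⟨i, by simp [hs]⟩)⟩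
    · simp only [hs]
      exact ⟨h3 _ _ (Or.inr ⟨i, by simp [hs]⟩), h3 _ _ (Or.inr ⟨i, by simp [hs]⟩)⟩

/-- the trace of the matrix of a linkage times a matrix -/
theorem trace_mat_mul (X : Lk m) (N : ℕ) (R : Matrix (Fin m → Fin N) (Fin m → Fin N) ℂ) :
    Matrix.trace (X.mat N * R) =
      ∑ c : X.Q → Fin N, ind (∀ p q, X.R p q → c p = c q) * R (c ∘ X.u) (c ∘ X.l) := by
  unfold Matrix.trace
  simp only [Matrix.diag_apply, Matrix.mul_apply]
  have h1 : ∀ x y, X.mat N x y * R y x = ∑ c : X.Q → Fin N,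
      ind (c ∘ X.l = x ∧ c ∘ X.u = y ∧ ∀ p q, X.R p q → c p = c q) * R y x := by
    intro x y
    rw [← Finset.sum_mul]
    rfl
  simp only [h1]
  have h2 : ∀ x, ∑ y, ∑ c : X.Q → Fin N,
      ind (c ∘ X.l = x ∧ c ∘ X.u = y ∧ ∀ p q, X.R p q → c p = c q) * R y x =
      ∑ c : X.Q → Fin N, ∑ y,
      ind (c ∘ X.l = x ∧ c ∘ X.u = y ∧ ∀ p q, X.R p q → c p = c q) * R y x := by
    intro x
    exact Finset.sum_comm
  simp only [h2]
  rw [Finset.sum_comm]
  refine Finset.sum_congr rfl fun c _ => ?_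
  rw [Finset.sum_eq_single (c ∘ X.l), Finset.sum_eq_single (c ∘ X.u)]
  · rw [ind_congr (p := (c ∘ X.l = c ∘ X.l ∧ c ∘ X.u = c ∘ X.u ∧ ∀ p q, X.R p q → c p = c q))
      (q := ∀ p q, X.R p q → c p = c q) (by simp)]
  · intro y _ hy
    rw [ind_neg (fun h => hy h.2.1.symm), zero_mul]
  · intro h
    exact absurd (Finset.mem_univ _) h
  · intro x _ hx
    refine Finset.sum_eq_zero fun y _ => ?_
    rw [ind_neg (fun h => hx h.1.symm), zero_mul]
  · intro h
    exact absurd (Finset.mem_univ _) h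

/-- VT4 (1) -/
theorem bracket_ev (hm : 0 < m) (O : Outer m) (W : List (Bool × ℕ)) (hW : ∀ x ∈ W, x.2 + 1 < m) (N : ℕ) (hN : 3 ≤ N) :
    ev N hN (dl * (draw O W).close.bracket) =
      ∑ σ : Fin O.crossings.length → Bool, ev N hN (T (Diagram.weight σ)) *
        Matrix.trace ((ofO O σ).mat N * MR (Ar N) m N W) := by
  rw [map_mul, ev_dl]
  have : Nonempty (draw O W).P := ⟨(draw O W).lower ⟨0, hm⟩⟩
  rw [ev_bracket N hN, Z_close, Zg_draw _ _ hW]
  have h2 := rho_of (m := m) (N := N) (Ar N) W hW (fun x y => ind (x = y))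
  rw [delta_eq, mul_one] at h2
  have h3 : ∀ x y, rho (Ar N) m N W (fun x y => ind (x = y)) x y = MR (Ar N) m N W x y := by
    intro x y
    rw [← h2]
    rfl
  have h6 : ∀ σ : Fin O.crossings.length → Bool, ev N hN (T (Diagram.weight σ)) *
        Matrix.trace ((ofO O σ).mat N * MR (Ar N) m N W) =
      ∑ col : O.P → Fin N, Ar N ^ (Diagram.weight σ) *
        (ind (∀ p q, (⟨O.arcs, O.crossings⟩ : Diagram O.P).Joined σ p q → col p = col q) *
          MR (Ar N) m N W (col ∘ O.lower) (col ∘ O.upper)) := by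
    intro σ
    rw [ev_T, trace_mat_mul, Finset.mul_sum]
    rfl
  rw [Finset.sum_congr rfl fun σ _ => h6 σ, Finset.sum_comm]
  unfold Zg
  refine Finset.sum_congr rfl fun col _ => ?_
  have h4 := WW_states (Ar_ne N hN) (⟨O.arcs, O.crossings⟩ : Diagram O.P) col
  have h5 : WW (Ar N) O.arcs O.crossings col =
      WW (Ar N) (⟨O.arcs, O.crossings⟩ : Diagram O.P).arcs
        (⟨O.arcs, O.crossings⟩ : Diagram O.P).crossings col := rfl
  rw [h3, h5, h4, Finset.sum_mul]
  refine Finset.sum_congr rfl fun s _ => ?_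
  rw [mul_assoc]

/-- the values of the sum over the words -/
theorem ev_list_sum (hTL : ∀ (X : Lk m) (L : List ℕ), (∀ i ∈ L, i + 1 < m) → ∀ N : ℕ,
      Matrix.trace (X.mat N * WP (KK m N) L) = (N : ℂ) ^ X.lam L)
    (X : Lk m) (N : ℕ) (hN : 3 ≤ N) (S : List (ℤ[T;T⁻¹] × List ℕ))
    (hS : ∀ t ∈ S, ∀ i ∈ t.2, i + 1 < m) :
    ev N hN (S.map (fun t => t.1 * dl ^ X.lam t.2)).sum = Matrix.trace (X.mat N * evS m N hN S) := by
  induction S with
  | nil => simp [evS]
  | cons t S ih =>
    rw [List.map_cons, List.sum_cons, map_add, ih (fun u hu => hS u (List.mem_cons_of_mem _ hu)), evS_cons,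
      Matrix.mul_add, Matrix.trace_add, Matrix.mul_smul, Matrix.trace_smul,
      hTL X t.2 (hS t List.mem_cons_self) N, map_mul, map_pow, ev_dl, smul_eq_mul]

theorem trace_one (hTL : ∀ (X : Lk m) (L : List ℕ), (∀ i ∈ L, i + 1 < m) → ∀ N : ℕ,
      Matrix.trace (X.mat N * WP (KK m N) L) = (N : ℂ) ^ X.lam L) (X : Lk m) (N : ℕ) :
    Matrix.trace (X.mat N * 1) = (N : ℂ) ^ X.lam [] := by
  have h := hTL X [] (by simp) N
  rw [WP_nil] at h
  exact h

/-- VT4 (2) -/
theorem bracket_repL (hTL : ∀ (X : Lk m) (L : List ℕ), (∀ i ∈ L, i + 1 < m) → ∀ N : ℕ,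
      Matrix.trace (X.mat N * WP (KK m N) L) = (N : ℂ) ^ X.lam L)
    (hm : 0 < m) (O : Outer m) (W : List (Bool × ℕ)) (hW : ∀ x ∈ W, x.2 + 1 < m) {w : ℤ} {q : ℕ}
    {S : List (ℤ[T;T⁻¹] × List ℕ)} (h : RepL m 0 m W w q S) :
    dl * (draw O W).close.bracket = ∑ σ : Fin O.crossings.length → Bool, T (Diagram.weight σ) *
      (T w * dl ^ (ofO O σ).lam [] + (S.map (fun t => t.1 * dl ^ (ofO O σ).lam t.2)).sum) := by
  apply eq_of_ev
  intro N hN
  rw [bracket_ev hm O W hW N hN, h.eq N hN, map_sum]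
  refine Finset.sum_congr rfl fun σ _ => ?_
  rw [map_mul, map_add, Matrix.mul_add, Matrix.trace_add, Matrix.mul_smul, Matrix.trace_smul,
    trace_one hTL, ev_list_sum hTL (ofO O σ) N hN S (fun t ht i hi => by
      have := (h.mem t ht i hi).2; omega), map_mul, map_pow, ev_dl, smul_eq_mul]

/-- VT4 (3) -/
theorem bracket_states (hTL : ∀ (X : Lk m) (L : List ℕ), (∀ i ∈ L, i + 1 < m) → ∀ N : ℕ,
      Matrix.trace (X.mat N * WP (KK m N) L) = (N : ℂ) ^ X.lam L)
    (hm : 0 < m) (O : Outer m) (W : List (Bool × ℕ)) (hW : ∀ x ∈ W, x.2 + 1 < m) :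
    dl * (draw O W).close.bracket = ∑ σ : Fin O.crossings.length → Bool, T (Diagram.weight σ) *
      ((terms W).map (fun t : ℤ × List ℕ => (T t.1 * dl ^ (ofO O σ).lam t.2 : ℤ[T;T⁻¹]))).sum := by
  apply eq_of_ev
  intro N hN
  rw [bracket_ev hm O W hW N hN, MR_terms (Ar_ne N hN), map_sum]
  refine Finset.sum_congr rfl fun σ _ => ?_
  rw [map_mul]
  congr 1
  have h : ∀ l : List (ℤ × List ℕ), (∀ t ∈ l, ∀ i ∈ t.2, i + 1 < m) →
      Matrix.trace ((ofO O σ).mat N *
        (l.map (fun t : ℤ × List ℕ => Ar N ^ t.1 • WP (KK m N) t.2)).sum) =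
        ev N hN (l.map (fun t : ℤ × List ℕ => (T t.1 * dl ^ (ofO O σ).lam t.2 : ℤ[T;T⁻¹]))).sum := by
    intro l
    induction l with
    | nil => intro _; simp
    | cons t l ih =>
      intro hl
      rw [List.map_cons, List.sum_cons, List.map_cons, List.sum_cons, Matrix.mul_add,
        Matrix.trace_add, map_add, ih (fun u hu => hl u (List.mem_cons_of_mem _ hu)),
        Matrix.mul_smul, Matrix.trace_smul, hTL _ t.2 (hl t List.mem_cons_self) N, map_mul,
        map_pow, ev_dl, ev_T, smul_eq_mul]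
  exact h _ (terms_mem W hW)

/-- the joined points of the closed box -/
theorem joined_close (O : Outer m) (σ : Fin O.crossings.length → Bool) {N : ℕ} (c : O.P → Fin N) :
    (∀ p q, O.close.Joined σ p q → c p = c q) ↔
      (∀ p q, (⟨O.arcs, O.crossings⟩ : Diagram O.P).Joined σ p q → c p = c q) ∧
        c ∘ O.lower = c ∘ O.upper := by
  constructor
  · intro h
    refine ⟨fun p q hpq => ?_, funext fun j => ?_⟩
    · rcases hpq with h1 | h1
      · exact h p q (Or.inl (List.mem_append_left _ h1))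
      · exact h p q (Or.inr h1)
    · have h1 := List.mem_map_of_mem (f := fun j => if O.up j then (O.lower j, O.upper j) else
        (O.upper j, O.lower j)) (List.mem_finRange j)
      by_cases hj : O.up j = true
      · rw [if_pos hj] at h1
        exact h _ _ (Or.inl (List.mem_append_right _ h1))
      · rw [if_neg hj] at h1
        exact (h _ _ (Or.inl (List.mem_append_right _ h1))).symm
  · rintro ⟨h1, h2⟩ p q (h3 | h3)
    · rcases List.mem_append.1 h3 with h4 | h4
      · exact h1 p q (Or.inl h4)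
      · rw [List.mem_map] at h4
        obtain ⟨j, _, h5⟩ := h4
        have h6 : c (O.lower j) = c (O.upper j) := congrFun h2 j
        by_cases hj : O.up j = true
        · rw [if_pos hj, Prod.mk.injEq] at h5
          rw [← h5.1, ← h5.2, h6]
        · rw [if_neg hj, Prod.mk.injEq] at h5
          rw [← h5.1, ← h5.2, h6]
    · exact h1 p q (Or.inr h3)

theorem card_ind {P : Type} [Fintype P] [DecidableEq P] {N : ℕ} (r : P → P → Prop) :
    ((N ^ Nat.card (Quot r) : ℕ) : ℂ) = ∑ c : P → Fin N, ind (∀ p q, r p q → c p = c q) := by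
  classical
  rw [← card_colourings, Nat.card_eq_fintype_card, Fintype.card_subtype]
  unfold ind
  rw [Finset.card_eq_sum_ones, Nat.cast_sum, Finset.sum_filter]
  refine Finset.sum_congr rfl fun x _ => ?_
  by_cases hx : ∀ (p q : P), r p q → x p = x q
  · rw [if_pos hx, if_pos hx]; simp
  · rw [if_neg hx, if_neg hx]

/-- VT4 (4) -/
theorem lam_nil (hTL : ∀ (X : Lk m) (L : List ℕ), (∀ i ∈ L, i + 1 < m) → ∀ N : ℕ,
      Matrix.trace (X.mat N * WP (KK m N) L) = (N : ℂ) ^ X.lam L)
    (O : Outer m) (σ : Fin O.crossings.length → Bool) : (ofO O σ).lam [] = O.close.loops σ := by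
  have h1 := trace_one hTL (ofO O σ) 3
  rw [trace_mat_mul] at h1
  have h2 := card_ind (N := 3) (O.close.Joined σ)
  have h3 : ((3 ^ (ofO O σ).lam [] : ℕ) : ℂ) = ((3 ^ Nat.card (Quot (O.close.Joined σ)) : ℕ) : ℂ) := by
    rw [h2]
    push_cast at h1 ⊢
    rw [← h1]
    refine Finset.sum_congr rfl fun c _ => ?_
    have h4 : (1 : Matrix (Fin m → Fin 3) (Fin m → Fin 3) ℂ) (c ∘ (ofO O σ).u) (c ∘ (ofO O σ).l) =
        ind (c ∘ O.lower = c ∘ O.upper) := by
      rw [← delta_eq]
      rfl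
    rw [h4, ind_mul]
    exact ind_congr (joined_close O σ c).symm
  exact Nat.pow_right_injective (by norm_num : 2 ≤ 3) (Nat.cast_injective h3)

end Pool.Agent.N362.VT
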